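import Pool.Agent.H71.CQ.Basic

/-!
Board cqt_modules, row ACT: conjugacy of multiplicities.
-/

set_option autoImplicit false

open Set

namespace Pool.Agent.H88.CQ

open Pool.Agent.H71.CQ

variable {L : Type} {N : NF L} {e0 : ℕ → ℕ → L} {ι : Type} {e : ι → ℕ → ℕ → L}
  {g : ∀ i, {x // Wp N e0 x} ≃ {x // Wp N (e i) x}} {x : ι → ℕ}

theorem ac_ex (R : Rep N e0 e g x) {h : {x // Wp N e0 x} ≃ {x // Wp N e0 x}}
    (hh : WIso N e0 e0 h) (i : ι) : ∃ i', Ac N e0 e g x h i i' := by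
  obtain ⟨j, hj⟩ := R.ex (e i) (h.symm.trans (g i)) (x i) (R.m i) (R.s i)
    (hh.symm.trans (R.w i)) (R.hx i)
  refine ⟨j, ?_⟩
  have h1 := hj.symm
  have h2 : ((g j).symm.trans (h.symm.trans (g i))).symm = (g i).symm.trans (h.trans (g j)) := rfl
  rw [h2] at h1
  exact h1

theorem ac_symm {h : {x // Wp N e0 x} ≃ {x // Wp N e0 x}} {i i' : ι}
    (H : Ac N e0 e g x h i i') : Ac N e0 e g x h.symm i' i := by
  have h1 := PI.symm H
  exact h1

theorem ac_trans {h h' : {x // Wp N e0 x} ≃ {x // Wp N e0 x}} {i i' i'' : ι}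
    (H : Ac N e0 e g x h i i') (H' : Ac N e0 e g x h' i' i'') :
    Ac N e0 e g x (h.trans h') i i'' := by
  have h1 := PI.trans H H'
  have h2 : ((g i).symm.trans (h.trans (g i'))).trans ((g i').symm.trans (h'.trans (g i''))) =
      (g i).symm.trans ((h.trans h').trans (g i'')) := by
    ext k
    simp
  rw [h2] at h1
  exact h1

theorem ac_refl (i : ι) : Ac N e0 e g x (Equiv.refl _) i i := by
  have h1 : (g i).symm.trans ((Equiv.refl _).trans (g i)) = Equiv.refl _ := by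
    ext k
    simp
  unfold Ac
  rw [h1]
  exact pi_refl _

theorem ac_id (R : Rep N e0 e g x) {i i' : ι} (H : Ac N e0 e g x (Equiv.refl _) i i') :
    i = i' := R.un i i' H

theorem ac_un (R : Rep N e0 e g x) {h : {x // Wp N e0 x} ≃ {x // Wp N e0 x}} {i i' i'' : ι}
    (H : Ac N e0 e g x h i i') (H' : Ac N e0 e g x h i i'') : i' = i'' := by
  have h1 := ac_trans (ac_symm H) H'
  rw [Equiv.symm_trans_self] at h1
  exact ac_id R h1

theorem ac_inj (R : Rep N e0 e g x) {h : {x // Wp N e0 x} ≃ {x // Wp N e0 x}} {i i' i'' : ι}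
    (H : Ac N e0 e g x h i i'') (H' : Ac N e0 e g x h i' i'') : i = i' :=
  ac_un R (ac_symm H) (ac_symm H')

/-- the transport of the points -/
noncomputable def tv (h : {x // Wp N e0 x} ≃ {x // Wp N e0 x}) (σ : ι ≃ ι)
    (f : ∀ i, {y // Cm N (e i) (x i) y} ≃ {y // Cm N (e (σ i)) (x (σ i)) y}) :
    TV N e0 e x ≃ TV N e0 e x :=
  Equiv.sumCongr h (Equiv.sigmaCongr σ fun i => Equiv.prodCongr (Equiv.refl ℕ) (f i))

theorem tv_inl (h : {x // Wp N e0 x} ≃ {x // Wp N e0 x}) (σ : ι ≃ ι)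
    (f : ∀ i, {y // Cm N (e i) (x i) y} ≃ {y // Cm N (e (σ i)) (x (σ i)) y}) (k) :
    tv (e := e) h σ f (Sum.inl k) = Sum.inl (h k) := rfl

theorem tv_inr (h : {x // Wp N e0 x} ≃ {x // Wp N e0 x}) (σ : ι ≃ ι)
    (f : ∀ i, {y // Cm N (e i) (x i) y} ≃ {y // Cm N (e (σ i)) (x (σ i)) y}) (i : ι) (n : ℕ)
    (y : {y // Cm N (e i) (x i) y}) :
    tv (e := e) h σ f (Sum.inr ⟨i, n, y⟩) = Sum.inr ⟨σ i, n, f i y⟩ := rfl

theorem te_tv (R : Rep N e0 e g x) {h : {x // Wp N e0 x} ≃ {x // Wp N e0 x}}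
    (hh : WIso N e0 e0 h) (σ : ι ≃ ι)
    (f : ∀ i, {y // Cm N (e i) (x i) y} ≃ {y // Cm N (e (σ i)) (x (σ i)) y})
    (h1 : ∀ i y z, e (σ i) (f i y) (f i z) = e i y z)
    (h2 : ∀ i (k : {x // Wp N e0 x}) y, e (σ i) (g (σ i) (h k)) (f i y) = e i (g i k) y)
    (a b : TV N e0 e x) : TE N e0 e g x (tv (e := e) h σ f a) (tv (e := e) h σ f b) =
      TE N e0 e g x a b := by
  have h3 : ∀ i (k : {x // Wp N e0 x}) y, e (σ i) (f i y) (g (σ i) (h k)) = e i y (g i k) := by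
    intro i k y
    rw [(R.m (σ i)).rev (g (σ i) (h k)) (f i y), h2, ← (R.m i).rev]
  rcases a with k | ⟨i, n, y⟩ <;> rcases b with k' | ⟨j, n', z⟩
  · exact hh k k'
  · exact h2 j k z
  · exact h3 i k' y
  · rw [tv_inr, tv_inr]
    unfold TE
    simp only
    by_cases hc : i = j ∧ n = n'
    · obtain ⟨rfl, rfl⟩ := hc
      rw [if_pos ⟨rfl, rfl⟩, if_pos ⟨rfl, rfl⟩]
      exact h1 i y z
    · have hc' : ¬ (σ i = σ j ∧ n = n') := by
        rintro ⟨h4, h5⟩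
        exact hc ⟨σ.injective h4, h5⟩
      rw [if_neg hc, if_neg hc', h1 i y y, h1 j z z]

theorem iso_of_tm (R : Rep N e0 e g x) {m m' : ι → ℕ∞} (H : Tm N e0 e g x m m') :
    Iso (TM N e0 e g x m) (TM N e0 e g x m') := by
  obtain ⟨h, hh, hm⟩ := H
  choose s hs using fun i => ac_ex R hh i
  have hbij : Function.Bijective s := by
    constructor
    · intro i j hij
      have h1 := hs i
      have h2 := hs j
      rw [hij] at h1
      exact ac_inj R h1 h2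
    · intro j
      obtain ⟨i, hi⟩ := ac_ex R hh.symm j
      exact ⟨i, ac_un R (hs i) (ac_symm hi)⟩
  set σ : ι ≃ ι := Equiv.ofBijective s hbij with hσ
  have hs' : ∀ i, Ac N e0 e g x h i (σ i) := hs
  choose f hf1 hf2 using hs'
  have h2 : ∀ i (k : {x // Wp N e0 x}) y, e (σ i) (g (σ i) (h k)) (f i y) = e i (g i k) y := by
    intro i k y
    have h3 := hf2 i (g i k) y
    simp only [Equiv.trans_apply, Equiv.symm_apply_apply] at h3
    exact h3
  refine ⟨(tv (e := e) h σ f).subtypeEquiv ?_, fun a b => te_tv R hh σ f hf1 h2 a.1 b.1⟩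
  intro a
  rcases a with k | ⟨i, n, y⟩
  · exact Iff.rfl
  · rw [tv_inr]
    show (n : ℕ∞) < m i ↔ (n : ℕ∞) < m' (σ i)
    rw [hm i (σ i) (hs i)]

theorem pf_ACT : T_ACT := by
  intro L N _ _ _ e0 ι e g x R
  refine ⟨fun m => ⟨Equiv.refl _, fun _ _ => rfl, fun i i' H => ?_⟩, fun m m' H => ?_,
    fun m m' m'' H H' => ?_, fun m m' H => iso_of_tm R H⟩
  · rw [ac_id R H]
  · obtain ⟨h, hh, hm⟩ := H
    exact ⟨h.symm, hh.symm, fun i i' H => (hm i' i (ac_symm H)).symm⟩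
  · obtain ⟨h, hh, hm⟩ := H
    obtain ⟨h', hh', hm'⟩ := H'
    refine ⟨h.trans h', hh.trans hh', fun i i'' H => ?_⟩
    obtain ⟨i', hi'⟩ := ac_ex R hh i
    obtain ⟨j, hj⟩ := ac_ex R hh' i'
    have h1 : j = i'' := ac_un R (ac_trans hi' hj) H
    subst h1
    rw [hm' i' j hj, hm i i' hi']

end Pool.Agent.H88.CQ
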